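import Pool.Agent.Y570.OS.Approx

/-!
# The obstacle number cannot be approximated within a factor less than 2

The starting file `ObstacleNumberNPHard` shows that OBSTACLE NUMBER is NP-hard, already for one
obstacle. Here the hardness is extended to approximation algorithms, even to algorithms whose output
is compared from above with the obstacle number for closed polygons and from below with the obstacle
number for arbitrary connected obstacles, and to the graphs which consist of two disjoint copies
of one graph.
-/

set_option autoImplicit false

namespace Pool.Agent.Results.MP_465931_lc.NoApproximation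

open Pool.Agent.NPC Pool.Agent.H679R2 Pool.Agent.H670R5 Pool.Agent.Y570.OS

/-- (1) Let the class `𝒪` contain all closed polygons, let all members of the class `𝒪'` be connected,
and let `ρ < 2`. If there is a polynomial-time algorithm whose output for a graph is at most `ρ`
times the least number of obstacles of the class `𝒪` in a representation of the graph, and is at least
the least number of obstacles of the class `𝒪'`, then `P = NP`. (2) In particular: if `P ≠ NP` then no
polynomial-time algorithm approximates the obstacle number within a factor less than `2`. (3) For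
every class `𝒪` of connected obstacles which contains all closed polygons it is NP-hard to decide
whether a graph has a representation with at most `k` obstacles of the class `𝒪`, also for `k = 1`
and graphs which consist of two disjoint copies of one graph. (4) OBSTACLE NUMBER is NP-hard. -/
theorem result :
    (∀ (𝒪 𝒪' : Set Pl → Prop) (ρ : ℝ), (∀ P, ClosedPolygon P → 𝒪 P) →
      (∀ P, 𝒪' P → IsPreconnected P) → ρ < 2 → Approximable 𝒪 𝒪' ρ → PEqNP) ∧
    (∀ ρ : ℝ, ρ < 2 → Approximable ClosedPolygon ClosedPolygon ρ → PEqNP) ∧
    (∀ 𝒪 : Set Pl → Prop, (∀ P, ClosedPolygon P → 𝒪 P) → (∀ P, 𝒪 P → IsPreconnected P) →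
      NPHardP (ObsNumLE 𝒪) ∧ NPHardP (fun I => TwoCopies I ∧ ObsNumLE 𝒪 (I, 1))) ∧
    NPHardP (ObsNumLE ClosedPolygon) :=
  ⟨fun _ _ _ h1 h2 hρ h => approx_hard h1 h2 hρ h,
    fun _ hρ h => approx_hard (fun _ h => h) (fun _ h => closed_preconnected h) hρ h,
    fun 𝒪 h1 h2 => ⟨(hard_obs allSt 𝒪 h1 h2).toNPHardP, (hard_two h1 h2).toNPHardP⟩,
    (hard_obs allSt ClosedPolygon (fun _ h => h) (fun _ h => closed_preconnected h)).toNPHardP⟩

end Pool.Agent.Results.MP_465931_lc.NoApproximation
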